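import Pool.Agent.H16.NB.Lib

set_option autoImplicit false

open Set TopologicalSpace Topology Pool.Agent.H16.NB

namespace Pool.Agent.Results.MP_d968d9_gt.FiniteProducts

universe u

/-- (1) A product of finitely many spaces `X i` with bases of point-finite rank, each of them `T₁` or
hereditarily metacompact, is hereditarily metacompact and has a Noetherian base of subinfinite rank.

(2) It need not have a base of point-finite rank, even for two Hausdorff spaces with bases of rank `1`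
which consist of clopen sets. -/
theorem result :
    (∀ (ι : Type) [Finite ι] (X : ι → Type u) [∀ i, TopologicalSpace (X i)],
      (∀ i, ∃ Γ : Set (Set (X i)), IsTopologicalBasis Γ ∧ PointFiniteRank Γ) →
      (∀ i, T1Space (X i) ∨ HereditarilyMetacompact (X i)) →
      HereditarilyMetacompact (∀ i, X i) ∧
      ∃ 𝒩 : Set (Set (∀ i, X i)), IsTopologicalBasis 𝒩 ∧ NoethFamily 𝒩 ∧ SubinfiniteRank 𝒩) ∧
    (∃ (P Q : Type) (_ : TopologicalSpace P) (_ : TopologicalSpace Q), T2Space P ∧ T2Space Q ∧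
      (∃ Γ : Set (Set P), IsTopologicalBasis Γ ∧ (∀ G ∈ Γ, IsClopen G) ∧ ∀ x, RankLE Γ x 1) ∧
      (∃ Γ : Set (Set Q), IsTopologicalBasis Γ ∧ (∀ G ∈ Γ, IsClopen G) ∧ ∀ x, RankLE Γ x 1) ∧
      ¬ ∃ Γ : Set (Set (P × Q)), IsTopologicalBasis Γ ∧ PointFiniteRank Γ) := by
  refine ⟨?_, exists_pair_spaces⟩
  intro ι _ X _ h hT
  have h' : ∀ i, ∃ 𝒩 : Set (Set (X i)), IsTopologicalBasis 𝒩 ∧ NoethFamily 𝒩 ∧ SubinfiniteRank 𝒩 := by
    intro i
    obtain ⟨Γ, hΓ, hr⟩ := h i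
    obtain ⟨𝒩, h1, h2, h3, -⟩ := exists_noeth hΓ hr (hT i)
    exact ⟨𝒩, h1, h2, h3⟩
  obtain ⟨𝒩, h1, h2, h3⟩ := product_base h'
  exact ⟨hereditarilyMetacompact_of_noeth h1 h2 h3, 𝒩, h1, h2, h3⟩

end Pool.Agent.Results.MP_d968d9_gt.FiniteProducts
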