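import Pool.Agent.H16.NB.Lib

set_option autoImplicit false

open Set TopologicalSpace Topology Pool.Agent.H16.NB

namespace Pool.Agent.Results.MP_d968d9_gt.NoetherianBase

universe u

/-- **Main theorem.**

(1) Every `T₁` space that has a base `Γ` of point-finite rank has a base that is Noetherian and of
subinfinite (and point-finite) rank; its rank at each point is at most the rank of `Γ` there.

(2) For an arbitrary space with a base `Γ` of point-finite rank the following are equivalent: there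
is a Noetherian base of subinfinite rank; there is a Noetherian base whose rank at each point is at
most the rank of `Γ`; the space is hereditarily metacompact; there is no infinite strictly
decreasing sequence of closures of points.

(3) Without any separation axiom such a base need not exist, even if there is a base of
rank `1` and the space is `T₀`.

(4) The converse of (1) fails: a Hausdorff space with a base of clopen sets and with a Noetherian
base of subinfinite rank need not have a base of point-finite rank. -/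
theorem result :
    (∀ (X : Type u) [TopologicalSpace X] [T1Space X] (Γ : Set (Set X)),
      IsTopologicalBasis Γ → PointFiniteRank Γ →
      ∃ 𝒩 : Set (Set X), IsTopologicalBasis 𝒩 ∧ NoethFamily 𝒩 ∧ SubinfiniteRank 𝒩 ∧
        PointFiniteRank 𝒩 ∧ ∀ (x : X) (n : ℕ), RankLE Γ x n → RankLE 𝒩 x n) ∧
    (∀ (X : Type u) [TopologicalSpace X] (Γ : Set (Set X)),
      IsTopologicalBasis Γ → PointFiniteRank Γ →
      ((∃ 𝒩 : Set (Set X), IsTopologicalBasis 𝒩 ∧ NoethFamily 𝒩 ∧ SubinfiniteRank 𝒩) ↔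
        ¬ ∃ z : ℕ → X, ∀ i, closure ({z (i + 1)} : Set X) ⊂ closure {z i}) ∧
      ((∃ 𝒩 : Set (Set X), IsTopologicalBasis 𝒩 ∧ NoethFamily 𝒩 ∧ SubinfiniteRank 𝒩) ↔
        HereditarilyMetacompact X) ∧
      ((∃ 𝒩 : Set (Set X), IsTopologicalBasis 𝒩 ∧ NoethFamily 𝒩 ∧ SubinfiniteRank 𝒩) ↔
        ∃ 𝒩 : Set (Set X), IsTopologicalBasis 𝒩 ∧ NoethFamily 𝒩 ∧
          ∀ (x : X) (n : ℕ), RankLE Γ x n → RankLE 𝒩 x n)) ∧
    (∃ (Y : Type) (_ : TopologicalSpace Y) (Γ : Set (Set Y)),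
      T0Space Y ∧ IsTopologicalBasis Γ ∧ (∀ y, RankLE Γ y 1) ∧
      ¬ ∃ 𝒩 : Set (Set Y), IsTopologicalBasis 𝒩 ∧ NoethFamily 𝒩 ∧ SubinfiniteRank 𝒩) ∧
    (∃ (Y : Type) (_ : TopologicalSpace Y), T2Space Y ∧
      (∃ ℬ : Set (Set Y), IsTopologicalBasis ℬ ∧ ∀ B ∈ ℬ, IsClopen B) ∧
      (∃ 𝒩 : Set (Set Y), IsTopologicalBasis 𝒩 ∧ NoethFamily 𝒩 ∧ SubinfiniteRank 𝒩) ∧
      ¬ ∃ Γ : Set (Set Y), IsTopologicalBasis Γ ∧ PointFiniteRank Γ) := by
  refine ⟨?_, ?_, exists_example, ?_⟩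
  · intro X _ hT Γ hΓ hr
    exact exists_noeth hΓ hr (Or.inl hT)
  · intro X _ Γ hΓ hr
    have key : HereditarilyMetacompact X → ∃ 𝒩 : Set (Set X), IsTopologicalBasis 𝒩 ∧
        NoethFamily 𝒩 ∧ SubinfiniteRank 𝒩 := by
      intro h
      obtain ⟨𝒩, h1, h2, h3, -⟩ := exists_noeth hΓ hr (Or.inr h)
      exact ⟨𝒩, h1, h2, h3⟩
    refine ⟨⟨?_, ?_⟩, ⟨?_, key⟩, ⟨?_, ?_⟩⟩
    · rintro ⟨𝒩, h1, h2, h3⟩
      exact no_descending h1 h2 h3
    · intro hW
      obtain ⟨𝒩, h1, h2, h3⟩ := exists_noeth_base hΓ hr hW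
      have hpf : PointFiniteRank 𝒩 := fun x => (hr x).imp fun n hn => rank_of_subset_cc h1 hn
      exact ⟨𝒩, h2, h3, subinfinite_of_pointFinite hpf⟩
    · rintro ⟨𝒩, h1, h2, h3⟩
      exact hereditarilyMetacompact_of_noeth h1 h2 h3
    · rintro ⟨𝒩, h1, h2, h3⟩
      obtain ⟨ℳ, g1, g2, -, -, g5⟩ :=
        exists_noeth hΓ hr (Or.inr (hereditarilyMetacompact_of_noeth h1 h2 h3))
      exact ⟨ℳ, g1, g2, g5⟩
    · rintro ⟨𝒩, h1, h2, h3⟩
      exact ⟨𝒩, h1, h2, subinfinite_of_pointFinite fun x => (hr x).imp fun n hn => h3 x n hn⟩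
  · obtain ⟨P, Q, _, _, h1, h2, ⟨Γ, hΓ, hΓc, hΓr⟩, ⟨Δ, hΔ, hΔc, hΔr⟩, h5⟩ := exists_pair_spaces
    obtain ⟨𝒩, g1, g2, g3, -⟩ := exists_noeth hΓ (fun x => ⟨1, hΓr x⟩) (Or.inl inferInstance)
    obtain ⟨ℳ, k1, k2, k3, -⟩ := exists_noeth hΔ (fun x => ⟨1, hΔr x⟩) (Or.inl inferInstance)
    refine ⟨P × Q, inferInstance, inferInstance, ⟨image2 (· ×ˢ ·) Γ Δ, hΓ.prod hΔ, ?_⟩,
      prod_base ⟨𝒩, g1, g2, g3⟩ ⟨ℳ, k1, k2, k3⟩, h5⟩
    rintro _ ⟨A, hA, B, hB, rfl⟩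
    exact (hΓc A hA).prod (hΔc B hB)

end Pool.Agent.Results.MP_d968d9_gt.NoetherianBase
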